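import Mathlib

/-!
The real sequence space `c₀(ℕ × ℕ)`: unit vectors, coordinates, summability of the coordinates of
a continuous functional, density criterion.
-/

set_option autoImplicit false

open Filter Topology
open scoped ZeroAtInfty

namespace Pool.Agent.Helper87_FPV

/-- index set -/
abbrev I := ℕ × ℕ

/-- the Banach space `c₀(ℕ × ℕ)` -/
def C : Type := C₀(I, ℝ)

noncomputable instance : NormedAddCommGroup C := inferInstanceAs (NormedAddCommGroup C₀(I, ℝ))

noncomputable instance : NormedSpace ℝ C := inferInstanceAs (NormedSpace ℝ C₀(I, ℝ))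

instance : CompleteSpace C := inferInstanceAs (CompleteSpace C₀(I, ℝ))

instance : FunLike C I ℝ := inferInstanceAs (FunLike C₀(I, ℝ) I ℝ)

lemma C.ext {u v : C} (h : ∀ i, u i = v i) : u = v :=
  ZeroAtInftyContinuousMap.ext (f := (show C₀(I, ℝ) from u)) (g := (show C₀(I, ℝ) from v)) h

@[simp] lemma C.add_apply (u v : C) (i : I) : (u + v) i = u i + v i := rfl

@[simp] lemma C.sub_apply (u v : C) (i : I) : (u - v) i = u i - v i := rfl

@[simp] lemma C.smul_apply (c : ℝ) (u : C) (i : I) : (c • u) i = c * u i := rfl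

@[simp] lemma C.zero_apply (i : I) : (0 : C) i = 0 := rfl

/-- an element of `C` from a function tending to zero along `cofinite`. -/
def mk0 (f : I → ℝ) (hf : Tendsto f cofinite (𝓝 0)) : C :=
  show C₀(I, ℝ) from
  { toFun := f
    continuous_toFun := continuous_of_discreteTopology
    zero_at_infty' := by rwa [cocompact_eq_cofinite] }

@[simp] lemma mk0_apply (f : I → ℝ) (hf : Tendsto f cofinite (𝓝 0)) (i : I) :
    mk0 f hf i = f i := rfl

lemma tendsto_coe (u : C) : Tendsto (fun i => u i) cofinite (𝓝 0) := by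
  have := (show C₀(I, ℝ) from u).zero_at_infty'
  rw [cocompact_eq_cofinite] at this
  exact this

lemma abs_apply_le (u : C) (i : I) : |u i| ≤ ‖u‖ :=
  (show C₀(I, ℝ) from u).toBCF.norm_coe_le_norm i

lemma norm_le_of (u : C) {c : ℝ} (hc : 0 ≤ c) (h : ∀ i, |u i| ≤ c) : ‖u‖ ≤ c :=
  (BoundedContinuousFunction.norm_le (f := (show C₀(I, ℝ) from u).toBCF) hc).2 h

/-- coordinate functional -/
noncomputable def coord (i : I) : C →L[ℝ] ℝ :=
  LinearMap.mkContinuous
    { toFun := fun u => u i, map_add' := fun _ _ => rfl, map_smul' := fun _ _ => rfl } 1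
    (fun u => by simpa using abs_apply_le u i)

@[simp] lemma coord_apply (i : I) (u : C) : coord i u = u i := rfl

lemma norm_coord_le (i : I) : ‖coord i‖ ≤ 1 :=
  LinearMap.mkContinuous_norm_le _ zero_le_one _

/-- unit vector -/
noncomputable def e (i : I) : C :=
  mk0 (Pi.single i 1) (by
    refine tendsto_nhds_of_eventually_eq ?_
    filter_upwards [(Set.finite_singleton i).compl_mem_cofinite] with j hj
    exact Pi.single_eq_of_ne hj _)

lemma e_apply (i j : I) : e i j = if j = i then 1 else 0 := by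
  simp [e, Pi.single_apply]

@[simp] lemma e_self (i : I) : e i i = 1 := by simp [e_apply]

lemma sum_e_apply (F : Finset I) (c : I → ℝ) (j : I) :
    (∑ i ∈ F, c i • e i) j = if j ∈ F then c j else 0 := by
  have : (∑ i ∈ F, c i • e i) j = coord j (∑ i ∈ F, c i • e i) := rfl
  rw [this, map_sum]
  simp only [map_smul, coord_apply, e_apply, smul_eq_mul, mul_ite, mul_one, mul_zero]
  rw [Finset.sum_ite_eq F j c]

lemma hasSum_e (u : C) : HasSum (fun i => u i • e i) u := by
  rw [HasSum, SummationFilter.unconditional_filter, Metric.tendsto_nhds]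
  intro ε hε
  have h1 := (Metric.tendsto_nhds.1 (tendsto_coe u)) (ε / 2) (half_pos hε)
  have hfin : {i : I | ¬ dist (u i) 0 < ε / 2}.Finite := h1
  filter_upwards [eventually_ge_atTop hfin.toFinset] with F hF
  rw [dist_eq_norm]
  refine lt_of_le_of_lt (norm_le_of _ (half_pos hε).le ?_) (half_lt_self hε)
  intro i
  rw [C.sub_apply, sum_e_apply]
  by_cases hi : i ∈ F
  · simp [hi, (half_pos hε).le]
  · have : i ∉ hfin.toFinset := fun h => hi (hF h)
    simp only [Set.Finite.mem_toFinset, Set.mem_setOf_eq, not_not, dist_zero_right,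
      Real.norm_eq_abs] at this
    simp [hi, this.le]

lemma hasSum_apply (φ : C →L[ℝ] ℝ) (u : C) : HasSum (fun i => u i * φ (e i)) (φ u) := by
  have := (hasSum_e u).mapL φ
  simpa using this

lemma ext_e {φ ψ : C →L[ℝ] ℝ} (h : ∀ i, φ (e i) = ψ (e i)) : φ = ψ := by
  ext u
  have h1 := hasSum_apply φ u
  have h2 := hasSum_apply ψ u
  simp only [h] at h1
  exact h1.unique h2

lemma summable_abs (φ : C →L[ℝ] ℝ) : Summable (fun i => |φ (e i)|) := by
  refine summable_of_sum_le (c := ‖φ‖) (fun i => abs_nonneg _) (fun F => ?_)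
  have h1 : ∑ i ∈ F, |φ (e i)| = φ (∑ i ∈ F, (SignType.sign (φ (e i)) : ℝ) • e i) := by
    rw [map_sum]
    refine Finset.sum_congr rfl (fun i _ => ?_)
    rw [map_smul, smul_eq_mul, sign_mul_self]
  rw [h1]
  refine (le_abs_self _).trans ((φ.le_opNorm _).trans ?_)
  refine mul_le_of_le_one_right (norm_nonneg _) (norm_le_of _ zero_le_one (fun j => ?_))
  rw [sum_e_apply]
  split_ifs
  · rcases lt_trichotomy (φ (e j)) 0 with h | h | h
    · simp [h]
    · simp [h]
    · simp [h]
  · simp

lemma tendsto_apply_e (φ : C →L[ℝ] ℝ) : Tendsto (fun i => φ (e i)) cofinite (𝓝 0) :=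
  (summable_abs φ).of_abs.tendsto_cofinite_zero

/-- A submodule on which only the zero functional vanishes is dense. -/
lemma dense_of_forall {V : Submodule ℝ C}
    (h : ∀ φ : C →L[ℝ] ℝ, (∀ v ∈ V, φ v = 0) → φ = 0) (u : C) : u ∈ closure (V : Set C) := by
  by_contra hu
  have hconv : Convex ℝ (closure (V : Set C)) := V.convex.closure
  obtain ⟨f, a, hfa, hfu⟩ := geometric_hahn_banach_closed_point hconv isClosed_closure hu
  have hz : ∀ v ∈ V, f v = 0 := by
    intro v hv
    by_contra hne
    have h1 := hfa _ (subset_closure (V.smul_mem ((a + 1) / f v) hv))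
    rw [map_smul, smul_eq_mul, div_mul_cancel₀ _ hne] at h1
    linarith
  have hf := h f hz
  have h0 := hfa 0 (subset_closure V.zero_mem)
  rw [hf] at hfu h0
  simp at hfu h0
  linarith

end Pool.Agent.Helper87_FPV
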