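import Pool.Agent.Helper87_FPV.Trace

/-!
The closed convex cone `{(r, g) : ∑ |r w_k + g_k| ≤ r}` in `ℝ × ℓ²`.
-/

set_option autoImplicit false

open Filter Topology
open scoped ZeroAtInfty RealInnerProductSpace

namespace Pool.Agent.Helper87_FPV

/-- the cone -/
def K : Set (ℝ × H) := {p | ∀ S : Finset ℕ, ∑ k ∈ S, |p.1 * w k + (p.2 : ℕ → ℝ) k| ≤ p.1}

lemma mem_K {p : ℝ × H} :
    p ∈ K ↔ ∀ S : Finset ℕ, ∑ k ∈ S, |p.1 * w k + (p.2 : ℕ → ℝ) k| ≤ p.1 := Iff.rfl

lemma K_nonneg {p : ℝ × H} (h : p ∈ K) : 0 ≤ p.1 := by simpa using h ∅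

lemma zero_mem_K : (0 : ℝ × H) ∈ K := by intro S; simp

lemma smul_mem_K {p : ℝ × H} (h : p ∈ K) {t : ℝ} (ht : 0 ≤ t) : t • p ∈ K := by
  intro S
  have h1 := mul_le_mul_of_nonneg_left (h S) ht
  rw [Finset.mul_sum] at h1
  simp only [Prod.smul_fst, Prod.smul_snd, lp.coeFn_smul, Pi.smul_apply, smul_eq_mul]
  refine le_trans (le_of_eq (Finset.sum_congr rfl fun k _ => ?_)) h1
  rw [← abs_of_nonneg ht, ← abs_mul, abs_of_nonneg ht]
  congr 1
  ring

lemma add_mem_K {p q : ℝ × H} (hp : p ∈ K) (hq : q ∈ K) : p + q ∈ K := by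
  intro S
  have h1 := add_le_add (hp S) (hq S)
  rw [← Finset.sum_add_distrib] at h1
  refine le_trans (Finset.sum_le_sum fun k _ => ?_) h1
  simp only [Prod.fst_add, Prod.snd_add, lp.coeFn_add, Pi.add_apply]
  refine le_trans (le_of_eq ?_) (abs_add_le _ _)
  congr 1
  ring

lemma convex_K : Convex ℝ K := by
  intro p hp q hq a b ha hb _
  exact add_mem_K (smul_mem_K hp ha) (smul_mem_K hq hb)

lemma isClosed_K : IsClosed K := by
  have : K = ⋂ S : Finset ℕ, {p : ℝ × H | ∑ k ∈ S, |p.1 * w k + (p.2 : ℕ → ℝ) k| ≤ p.1} := by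
    ext p; simp [mem_K]
  rw [this]
  refine isClosed_iInter fun S => ?_
  refine isClosed_le ?_ continuous_fst
  refine continuous_finsetSum _ fun k _ => ?_
  refine Continuous.abs ?_
  refine (continuous_fst.mul continuous_const).add ?_
  have h1 : Continuous fun p : ℝ × H => ⟪ep k, p.2⟫ := by fun_prop
  simpa [inner_ep] using h1

lemma separate {p : ℝ × H} (hp : p ∉ K) :
    ∃ f : (ℝ × H) →L[ℝ] ℝ, (∀ q ∈ K, f q ≤ 0) ∧ 0 < f p := by
  obtain ⟨f, a, hfa, hfp⟩ := geometric_hahn_banach_closed_point convex_K isClosed_K hp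
  have h0 : 0 < a := by simpa using hfa 0 zero_mem_K
  refine ⟨f, fun q hq => ?_, h0.trans hfp⟩
  by_contra hne
  push Not at hne
  have h1 := hfa _ (smul_mem_K hq (t := a / f q) (by positivity))
  rw [map_smul, smul_eq_mul, div_mul_cancel₀ _ hne.ne'] at h1
  exact lt_irrefl _ h1

/-- truncation -/
noncomputable def tr (n : ℕ) (g : H) : H := ∑ k ∈ Finset.range n, (g : ℕ → ℝ) k • ep k

lemma coe_sum_smul_ep (F : Finset ℕ) (c : ℕ → ℝ) (j : ℕ) :
    ((∑ k ∈ F, c k • ep k : H) : ℕ → ℝ) j = if j ∈ F then c j else 0 := by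
  rw [← inner_ep, inner_sum]
  simp only [inner_smul_right, inner_ep, ep_apply, mul_ite, mul_one, mul_zero]
  rw [Finset.sum_ite_eq F j c]

lemma tr_apply (n : ℕ) (g : H) (j : ℕ) :
    (tr n g : ℕ → ℝ) j = if j < n then (g : ℕ → ℝ) j else 0 := by
  rw [tr, coe_sum_smul_ep]; simp

lemma tendsto_tr (g : H) : Tendsto (fun n => tr n g) atTop (𝓝 g) := by
  have h := (lp.hasSum_single (E := fun _ : ℕ => ℝ) (p := 2) (by norm_num) g).tendsto_sum_nat
  refine h.congr (fun n => Finset.sum_congr rfl fun k _ => ?_)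
  rw [ep, ← lp.single_smul]
  simp

/-- tails of the weights -/
noncomputable def del (n : ℕ) : ℝ := (1 / 2) ^ (n + 1)

lemma del_pos (n : ℕ) : 0 < del n := by unfold del; positivity

lemma sum_w (n : ℕ) : ∑ k ∈ Finset.range n, w k = 1 / 2 - del n := by
  induction n with
  | zero => simp [del]
  | succ n ih => rw [Finset.sum_range_succ, ih]; unfold del w; ring

lemma sum_w_le (n : ℕ) (S : Finset ℕ) (hS : ∀ k ∈ S, n ≤ k) : ∑ k ∈ S, w k ≤ del n := by
  obtain ⟨N, hN⟩ := S.bddAbove
  have h1 : S ⊆ (Finset.range (N + 1 + n)) \ Finset.range n := by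
    intro k hk
    have := hN hk
    have := hS k hk
    simp; omega
  have h2 := Finset.sum_le_sum_of_subset_of_nonneg (f := w) h1 (fun k _ _ => (w_pos k).le)
  have h3 : Finset.range n ⊆ Finset.range (N + 1 + n) := by
    intro k; simp; omega
  have h4 := Finset.sum_sdiff (f := w) h3
  rw [sum_w, sum_w] at h4
  have h5 := del_pos (N + 1 + n)
  linarith

lemma tendsto_del : Tendsto del atTop (𝓝 0) := by
  have := (tendsto_pow_atTop_nhds_zero_of_lt_one (r := (1 / 2 : ℝ)) (by norm_num)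
    (by norm_num)).comp (tendsto_add_atTop_nat 1)
  exact this

lemma approx_mem_K {p : ℝ × H} (hp : p ∈ K) (n : ℕ) :
    (p.1 * (1 + 2 * del n), tr n p.2) ∈ K := by
  intro S
  have hr := K_nonneg hp
  have hd := del_pos n
  have h0 := Finset.sum_filter_add_sum_filter_not S (fun k => k < n)
    (fun k => |p.1 * (1 + 2 * del n) * w k + (tr n p.2 : ℕ → ℝ) k|)
  simp only at h0 ⊢
  rw [← h0]
  have h1 : ∑ k ∈ S with k < n, |p.1 * (1 + 2 * del n) * w k + (tr n p.2 : ℕ → ℝ) k|
      ≤ p.1 + 2 * p.1 * del n * (1 / 2 - del n) := by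
    have h2 : ∀ k ∈ S.filter (fun k => k < n),
        |p.1 * (1 + 2 * del n) * w k + (tr n p.2 : ℕ → ℝ) k|
          ≤ |p.1 * w k + (p.2 : ℕ → ℝ) k| + 2 * p.1 * del n * w k := by
      intro k hk
      have hk' : k < n := (Finset.mem_filter.1 hk).2
      rw [tr_apply, if_pos hk']
      have h3 : p.1 * (1 + 2 * del n) * w k + (p.2 : ℕ → ℝ) k
          = (p.1 * w k + (p.2 : ℕ → ℝ) k) + 2 * p.1 * del n * w k := by ring
      rw [h3]
      refine (abs_add_le _ _).trans ?_
      have h4 : 0 ≤ 2 * p.1 * del n * w k := by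
        have := w_pos k; positivity
      rw [abs_of_nonneg h4]
    refine (Finset.sum_le_sum h2).trans ?_
    rw [Finset.sum_add_distrib, ← Finset.mul_sum]
    refine add_le_add (hp _) (mul_le_mul_of_nonneg_left ?_ (by positivity))
    rw [← sum_w]
    refine Finset.sum_le_sum_of_subset_of_nonneg ?_ (fun k _ _ => (w_pos k).le)
    intro k hk
    simpa using (Finset.mem_filter.1 hk).2
  have h5 : ∑ k ∈ S with ¬ k < n, |p.1 * (1 + 2 * del n) * w k + (tr n p.2 : ℕ → ℝ) k|
      ≤ p.1 * (1 + 2 * del n) * del n := by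
    have h6 : ∀ k ∈ S.filter (fun k => ¬ k < n),
        |p.1 * (1 + 2 * del n) * w k + (tr n p.2 : ℕ → ℝ) k|
          = p.1 * (1 + 2 * del n) * w k := by
      intro k hk
      have hk' : ¬ k < n := (Finset.mem_filter.1 hk).2
      rw [tr_apply, if_neg hk', add_zero, abs_of_nonneg]
      have := w_pos k; positivity
    rw [Finset.sum_congr rfl h6, ← Finset.mul_sum]
    refine mul_le_mul_of_nonneg_left (sum_w_le n _ ?_) (by positivity)
    intro k hk
    exact not_lt.1 (Finset.mem_filter.1 hk).2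
  have h7 : p.1 + 2 * p.1 * del n * (1 / 2 - del n) + p.1 * (1 + 2 * del n) * del n
      = p.1 * (1 + 2 * del n) := by ring
  linarith

lemma tendsto_approx (p : ℝ × H) :
    Tendsto (fun n => (p.1 * (1 + 2 * del n), tr n p.2)) atTop (𝓝 p) := by
  have h1 : Tendsto (fun n => p.1 * (1 + 2 * del n)) atTop (𝓝 p.1) := by
    have := ((tendsto_del.const_mul 2).const_add 1).const_mul p.1
    simpa using this
  exact Tendsto.prodMk_nhds h1 (tendsto_tr p.2)

/-- Perturbation of a positive coordinate inside the cone. -/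
lemma perturb {p : ℝ × H} (hp : p ∈ K) {k i : ℕ} (hki : i ≠ k) {t c : ℝ}
    (ht : 0 ≤ t) (hk : t ≤ p.1 * w k + (p.2 : ℕ → ℝ) k) (hc : |c| ≤ t) :
    p + (0, c • ep i - t • ep k) ∈ K := by
  intro S
  have key : ∀ j, |(p + (0, c • ep i - t • ep k)).1 * w j
      + ((p + (0, c • ep i - t • ep k)).2 : ℕ → ℝ) j|
      ≤ |p.1 * w j + (p.2 : ℕ → ℝ) j| + ((if j = i then t else 0) - (if j = k then t else 0)) := by
    intro j
    simp only [Prod.fst_add, Prod.snd_add, add_zero, lp.coeFn_add, Pi.add_apply, lp.coeFn_sub,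
      Pi.sub_apply, lp.coeFn_smul, Pi.smul_apply, ep_apply, smul_eq_mul]
    by_cases hjk : j = k
    · subst hjk
      have hji : ¬ j = i := fun h => hki h.symm
      simp only [hji, if_false, if_true, mul_zero, mul_one, zero_sub]
      have h1 : 0 ≤ p.1 * w j + (p.2 : ℕ → ℝ) j := ht.trans hk
      rw [abs_of_nonneg h1, abs_of_nonneg (by linarith)]
      linarith
    · by_cases hji : j = i
      · subst hji
        simp only [hjk, if_false, if_true, mul_zero, mul_one, sub_zero]
        rw [← add_assoc]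
        exact (abs_add_le _ _).trans (by linarith)
      · simp [hjk, hji]
  by_cases hkS : k ∈ S
  · refine (Finset.sum_le_sum fun j _ => key j).trans ?_
    rw [Finset.sum_add_distrib, Finset.sum_sub_distrib, Finset.sum_ite_eq', Finset.sum_ite_eq',
      if_pos hkS]
    have h1 := hp S
    have h2 : (if i ∈ S then t else 0) ≤ t := by split_ifs <;> simp [ht]
    simp only [Prod.fst_add, add_zero]
    linarith
  · have h1 := hp (insert k S)
    rw [Finset.sum_insert hkS] at h1
    refine (Finset.sum_le_sum fun j _ => key j).trans ?_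
    rw [Finset.sum_add_distrib, Finset.sum_sub_distrib, Finset.sum_ite_eq', Finset.sum_ite_eq',
      if_neg hkS]
    have h2 : (if i ∈ S then t else 0) ≤ t := by split_ifs <;> simp [ht]
    have h3 : t ≤ |p.1 * w k + (p.2 : ℕ → ℝ) k| := hk.trans (le_abs_self _)
    simp only [Prod.fst_add, add_zero]
    linarith

/-- At the points of the cone coming from the relation (with positive first coordinate) every
support functional vanishes. -/
lemma rigid {p : ℝ × H} (hp : p ∈ K) (hr : 0 < p.1) {b : ℕ → ℝ} (hb : Tendsto b atTop (𝓝 0))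
    (hpb : ∀ k, |(p.2 : ℕ → ℝ) k| ≤ w k * b k) (N : (ℝ × H) →L[ℝ] ℝ)
    (hN : ∀ q ∈ K, N (q - p) ≤ 0) : N = 0 := by
  obtain ⟨k₀, hk₀⟩ : ∃ k₀, ∀ k ≥ k₀, b k < p.1 :=
    Filter.eventually_atTop.1 (hb.eventually (gt_mem_nhds hr))
  have hpos : ∀ k ≥ k₀, 0 < p.1 * w k + (p.2 : ℕ → ℝ) k := by
    intro k hk
    have h1 := hpb k
    have h2 := mul_lt_mul_of_pos_left (hk₀ k hk) (w_pos k)
    have h3 := neg_abs_le ((p.2 : ℕ → ℝ) k)
    nlinarith
  set a : ℕ → ℝ := fun k => N (0, ep k) with ha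
  have hstep : ∀ k ≥ k₀, ∀ i, i ≠ k → |a i| ≤ a k := by
    intro k hk i hik
    set t := p.1 * w k + (p.2 : ℕ → ℝ) k with ht
    have htp : 0 < t := hpos k hk
    have h1 : ∀ σ : ℝ, |σ| ≤ 1 → σ * a i ≤ a k := by
      intro σ hσ
      have h2 := hN _ (perturb hp hik (t := t) (c := t * σ) htp.le le_rfl (by
        rw [abs_mul, abs_of_pos htp]; exact mul_le_of_le_one_right htp.le hσ))
      rw [add_sub_cancel_left] at h2
      have h3 : ((0 : ℝ), (t * σ) • ep i - t • ep k)
          = (t * σ) • ((0 : ℝ), ep i) - t • ((0 : ℝ), ep k) := by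
        simp
      rw [h3, map_sub, map_smul, map_smul, smul_eq_mul, smul_eq_mul] at h2
      have h4 : t * (σ * a i) ≤ t * a k := by
        have : t * σ * a i - t * a k ≤ 0 := h2
        linarith
      exact le_of_mul_le_mul_left h4 htp
    rcases abs_cases (a i) with ⟨h5, _⟩ | ⟨h5, _⟩
    · rw [h5]; simpa using h1 1 (by simp)
    · rw [h5]; simpa using h1 (-1) (by simp)
  have hatend : Tendsto a atTop (𝓝 0) := by
    obtain ⟨y, hy⟩ : ∃ y : H, ∀ g : H, N (0, g) = ⟪y, g⟫ := by
      refine ⟨(InnerProductSpace.toDual ℝ H).symm (N.comp (ContinuousLinearMap.inr ℝ ℝ H)),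
        fun g => ?_⟩
      rw [InnerProductSpace.toDual_symm_apply]
      rfl
    have h1 : a = fun k => (y : ℕ → ℝ) k := by
      funext k
      rw [ha]
      simp only [hy]
      rw [real_inner_comm, inner_ep]
    rw [h1]
    have h2 := (norm_sq_eq y).summable.tendsto_atTop_zero
    have h3 : Tendsto (fun k => Real.sqrt ((y : ℕ → ℝ) k ^ 2)) atTop (𝓝 0) := by
      simpa using h2.sqrt
    simp only [Real.sqrt_sq_eq_abs] at h3
    exact (tendsto_zero_iff_abs_tendsto_zero _).2 h3
  have hzero : ∀ i, a i = 0 := by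
    intro i
    have h1 : |a i| ≤ 0 := by
      refine ge_of_tendsto hatend ?_
      filter_upwards [eventually_ge_atTop k₀, eventually_gt_atTop i] with k hk hik
      exact hstep k hk i hik.ne
    exact abs_eq_zero.1 (le_antisymm h1 (abs_nonneg _))
  have hzero2 : ∀ g : H, N (0, g) = 0 := by
    intro g
    have h1 : Tendsto (fun n => N (0, tr n g)) atTop (𝓝 (N (0, g))) :=
      (N.continuous.tendsto _).comp
        (Tendsto.prodMk_nhds tendsto_const_nhds (tendsto_tr g))
    have h2 : ∀ n, N (0, tr n g) = 0 := by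
      intro n
      have h3 : N (0, tr n g) = (N.comp (ContinuousLinearMap.inr ℝ ℝ H)) (tr n g) := rfl
      rw [h3, tr, map_sum]
      refine Finset.sum_eq_zero fun k _ => ?_
      rw [map_smul]
      have : (N.comp (ContinuousLinearMap.inr ℝ ℝ H)) (ep k) = a k := rfl
      rw [this, hzero, smul_zero]
    simp only [h2] at h1
    exact tendsto_nhds_unique h1 tendsto_const_nhds |>.symm ▸ rfl
  have hNp : N p = 0 := by
    have h1 := hN 0 zero_mem_K
    have h2 := hN ((2 : ℝ) • p) (smul_mem_K hp (by norm_num))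
    rw [two_smul, add_sub_cancel_right] at h2
    rw [zero_sub, map_neg] at h1
    linarith
  have hsplit : ∀ q : ℝ × H, N q = q.1 * N (1, 0) := by
    intro q
    have h1 : q = q.1 • ((1 : ℝ), (0 : H)) + (0, q.2) := by ext1 <;> simp
    conv_lhs => rw [h1]
    rw [map_add, map_smul, hzero2, add_zero, smul_eq_mul]
  have hN1 : N (1, 0) = 0 := by
    have := hsplit p
    rw [hNp] at this
    rcases mul_eq_zero.1 this.symm with h | h
    · exact absurd h hr.ne'
    · exact h
  ext1
  · ext; simp [hN1]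
  · ext g
    simpa using hzero2 g

end Pool.Agent.Helper87_FPV
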