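import Pool.Agent.Helper87_FPV.Cone

/-!
A maximally monotone operator with convex domain on `c₀(ℕ × ℕ) × (ℝ × ℓ²)` which is not of
type (FPV).
-/

set_option autoImplicit false

open Filter Topology
open scoped ZeroAtInfty RealInnerProductSpace

namespace Pool.Agent.Helper87_FPV

/-- the Banach space -/
abbrev X := C × (ℝ × H)

/-- the inner product functional on the second factor -/
noncomputable def inn (g : H) : (ℝ × H) →L[ℝ] ℝ :=
  (innerSL ℝ g).comp (ContinuousLinearMap.snd ℝ ℝ H)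

@[simp] lemma inn_apply (g : H) (q : ℝ × H) : inn g q = ⟪g, q.2⟫ := rfl

/-- the operator -/
def A (x : X) : Set (X →L[ℝ] ℝ) :=
  {F | (x.1, F.comp (ContinuousLinearMap.inl ℝ C (ℝ × H)), x.2.2) ∈ T ∧ x.2 ∈ K ∧
    ∀ q ∈ K, F (0, q - x.2) ≤ ⟪x.2.2, q.2 - x.2.2⟫}

lemma coprod_mem {u : C} {φ : C →L[ℝ] ℝ} {p : ℝ × H} {f : (ℝ × H) →L[ℝ] ℝ}
    (h1 : (u, φ, p.2) ∈ T) (h2 : p ∈ K) (h3 : ∀ q ∈ K, f (q - p) ≤ ⟪p.2, q.2 - p.2⟫) :
    φ.coprod f ∈ A (u, p) := by
  refine ⟨?_, h2, fun q hq => ?_⟩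
  · have : (φ.coprod f).comp (ContinuousLinearMap.inl ℝ C (ℝ × H)) = φ := by
      ext v; simp
    rw [this]; exact h1
  · simpa using h3 q hq

lemma split (F : X →L[ℝ] ℝ) (x : X) :
    F x = F.comp (ContinuousLinearMap.inl ℝ C (ℝ × H)) x.1 + F (0, x.2) := by
  have h : x = (x.1, 0) + (0, x.2) := by ext1 <;> simp
  conv_lhs => rw [h]
  rw [map_add]
  rfl

/-- the basic identity -/
lemma basic {x y : X} {F G : X →L[ℝ] ℝ} {m n : H}
    (hx : (x.1, F.comp (ContinuousLinearMap.inl ℝ C (ℝ × H)), m) ∈ T)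
    (hy : (y.1, G.comp (ContinuousLinearMap.inl ℝ C (ℝ × H)), n) ∈ T) :
    (F - G) (x - y) = -‖m - n‖ ^ 2 + F (0, x.2 - y.2) - G (0, x.2 - y.2) := by
  have h1 := T.sub_mem hx hy
  have h2 := quad h1
  rw [split (F - G) (x - y)]
  have h3 : (F - G).comp (ContinuousLinearMap.inl ℝ C (ℝ × H))
      = F.comp (ContinuousLinearMap.inl ℝ C (ℝ × H))
        - G.comp (ContinuousLinearMap.inl ℝ C (ℝ × H)) := by
    ext v; simp
  rw [h3]
  have h4 : (x - y).1 = x.1 - y.1 := rfl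
  have h5 : (x - y).2 = x.2 - y.2 := rfl
  have h6 : (F - G) (0, x.2 - y.2) = F (0, x.2 - y.2) - G (0, x.2 - y.2) := rfl
  rw [h4, h5, h6, h2]
  ring

lemma monotone_A (x y : X) (F : X →L[ℝ] ℝ) (hF : F ∈ A x) (G : X →L[ℝ] ℝ) (hG : G ∈ A y) :
    0 ≤ (F - G) (x - y) := by
  rw [basic hF.1 hG.1]
  have h1 := hF.2.2 y.2 hG.2.1
  have h2 := hG.2.2 x.2 hF.2.1
  have h3 : F (0, x.2 - y.2) = -F (0, y.2 - x.2) := by
    rw [← map_neg]; congr 1; ext1 <;> simp
  rw [h3, ← real_inner_self_eq_norm_sq]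
  simp only [inner_sub_left, inner_sub_right] at h1 h2 ⊢
  rw [real_inner_comm y.2.2 x.2.2] at h1 ⊢
  linarith

lemma exists_rel (n : ℕ) (g : H) : ∃ u : C, ∃ φ : C →L[ℝ] ℝ, (u, φ, tr n g) ∈ T := by
  refine ⟨∑ k ∈ Finset.range n, (g : ℕ → ℝ) k • (w k • e (k, 0)),
    ∑ k ∈ Finset.range n, (g : ℕ → ℝ) k • (-(w k)⁻¹ • coord (k, 0)), ?_⟩
  have h := T.sum_mem (t := Finset.range n)
    (f := fun k => (g : ℕ → ℝ) k • (w k • e (k, 0), -(w k)⁻¹ • coord (k, 0), ep k))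
    (fun k _ => T.smul_mem _ (single_mem_T k))
  convert h using 1
  refine Prod.ext ?_ (Prod.ext ?_ ?_)
  · simp [Prod.fst_sum]
  · simp [Prod.fst_sum, Prod.snd_sum]
  · simp [Prod.snd_sum, tr]

section Maximal

variable {x : X} {F : X →L[ℝ] ℝ} (h : ∀ y : X, ∀ G ∈ A y, 0 ≤ (F - G) (x - y))

include h

lemma max_rel : Rel x.1 (F.comp (ContinuousLinearMap.inl ℝ C (ℝ × H))) := by
  intro k n
  set φ := F.comp (ContinuousLinearMap.inl ℝ C (ℝ × H)) with hφ
  have key : ∀ t : ℝ, 0 ≤ F x - t * (w k ^ 2 * (φ (e (k, n + 1)) + φ (e (k, n)))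
      + (x.1 (k, n) - x.1 (k, n + 1))) := by
    intro t
    have hT := T.smul_mem t (test_mem_T k n)
    have hmem : (t • (coord (k, n) - coord (k, n + 1))).coprod (0 : (ℝ × H) →L[ℝ] ℝ)
        ∈ A (t • (w k ^ 2 • (e (k, n + 1) + e (k, n))), (0 : ℝ × H)) := by
      refine coprod_mem ?_ zero_mem_K (fun q _ => by simp)
      have : t • (0 : H) = (0 : ℝ × H).2 := by simp
      rw [← this]
      exact hT
    have h1 := h _ _ hmem
    have h2 : F (t • (w k ^ 2 • (e (k, n + 1) + e (k, n))), (0 : ℝ × H))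
        = t * (w k ^ 2 * (φ (e (k, n + 1)) + φ (e (k, n)))) := by
      have h3 : F (t • (w k ^ 2 • (e (k, n + 1) + e (k, n))), (0 : ℝ × H))
          = φ (t • (w k ^ 2 • (e (k, n + 1) + e (k, n)))) := rfl
      rw [h3, map_smul, map_smul, map_add, smul_eq_mul, smul_eq_mul]
    have h4 : (coord (k, n) - coord (k, n + 1)) (e (k, n + 1) + e (k, n)) = (0 : ℝ) := by
      simp [e_apply]
    have h5 : ((t • (coord (k, n) - coord (k, n + 1))).coprod (0 : (ℝ × H) →L[ℝ] ℝ))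
        (t • (w k ^ 2 • (e (k, n + 1) + e (k, n))), (0 : ℝ × H)) = 0 := by
      rw [ContinuousLinearMap.coprod_apply, map_smul, map_smul]
      have : (t • (coord (k, n) - coord (k, n + 1))) (e (k, n + 1) + e (k, n)) = (0 : ℝ) := by
        rw [_root_.smul_apply, h4, smul_zero]
      simp only [this, smul_zero, map_zero, add_zero]
    have h6 : ((t • (coord (k, n) - coord (k, n + 1))).coprod (0 : (ℝ × H) →L[ℝ] ℝ)) x
        = t * (x.1 (k, n) - x.1 (k, n + 1)) := by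
      rw [ContinuousLinearMap.coprod_apply]
      simp
    rw [map_sub, _root_.sub_apply, _root_.sub_apply, h2, h5, h6] at h1
    linarith
  set d := w k ^ 2 * (φ (e (k, n + 1)) + φ (e (k, n))) + (x.1 (k, n) - x.1 (k, n + 1)) with hd
  have hd0 : d = 0 := by
    by_contra hne
    have h1 := key ((F x + 1) / d)
    rw [div_mul_cancel₀ _ hne] at h1
    linarith
  linarith

lemma max_K : x.2 ∈ K := by
  by_contra hx
  obtain ⟨f, hf, hfx⟩ := separate hx
  set t := (|F x| + 1) / f x.2 with ht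
  have htp : 0 ≤ t := by positivity
  have hmem : (0 : C →L[ℝ] ℝ).coprod (t • f) ∈ A ((0 : C), (0 : ℝ × H)) := by
    refine coprod_mem T.zero_mem zero_mem_K (fun q hq => ?_)
    have := mul_nonpos_of_nonneg_of_nonpos htp (hf q hq)
    simpa using this
  have h1 := h _ _ hmem
  have h2 : ((0 : C), (0 : ℝ × H)) = (0 : X) := rfl
  rw [h2, sub_zero, _root_.sub_apply, ContinuousLinearMap.coprod_apply] at h1
  simp only [_root_.zero_apply, _root_.smul_apply, smul_eq_mul, zero_add] at h1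
  rw [ht, div_mul_cancel₀ _ hfx.ne'] at h1
  have := le_abs_self (F x)
  linarith

lemma max_ineq {m : H} (hm : (x.1, F.comp (ContinuousLinearMap.inl ℝ C (ℝ × H)), m) ∈ T)
    {p : ℝ × H} (hp : p ∈ K) :
    0 ≤ -‖m - p.2‖ ^ 2 + F (0, x.2 - p) - ⟪p.2, x.2.2 - p.2⟫ := by
  have key : ∀ n, 0 ≤ -‖m - tr n p.2‖ ^ 2 + F (0, x.2 - (p.1 * (1 + 2 * del n), tr n p.2))
      - ⟪tr n p.2, x.2.2 - tr n p.2⟫ := by
    intro n
    obtain ⟨u, φ, hT⟩ := exists_rel n p.2
    have hmem : φ.coprod (inn (tr n p.2)) ∈ A (u, (p.1 * (1 + 2 * del n), tr n p.2)) :=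
      coprod_mem hT (approx_mem_K hp n) (fun q _ => by simp)
    have h1 := h _ _ hmem
    rw [basic hm hmem.1] at h1
    simpa using h1
  have hlim := tendsto_approx p
  have hlim2 := tendsto_tr p.2
  have h1 : Tendsto (fun n => -‖m - tr n p.2‖ ^ 2
      + F (0, x.2 - (p.1 * (1 + 2 * del n), tr n p.2)) - ⟪tr n p.2, x.2.2 - tr n p.2⟫) atTop
      (𝓝 (-‖m - p.2‖ ^ 2 + F (0, x.2 - p) - ⟪p.2, x.2.2 - p.2⟫)) := by
    refine Tendsto.sub (Tendsto.add ?_ ?_) ?_
    · exact (((tendsto_const_nhds.sub hlim2).norm).pow 2).neg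
    · exact (F.continuous.tendsto _).comp
        (Tendsto.prodMk_nhds tendsto_const_nhds (tendsto_const_nhds.sub hlim))
    · exact hlim2.inner (tendsto_const_nhds.sub hlim2)
  exact ge_of_tendsto' h1 key

lemma maximal_A : F ∈ A x := by
  obtain ⟨m, hm⟩ := exists_trace (max_rel h)
  have hK := max_K h
  have h1 := max_ineq h hm hK
  have h2 : m = x.2.2 := by
    simp only [sub_self, inner_zero_right, sub_zero] at h1
    have h3 : F ((0 : C), (0 : ℝ × H)) = 0 := map_zero F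
    rw [h3] at h1
    have h4 : ‖m - x.2.2‖ ^ 2 = 0 := by
      have := sq_nonneg ‖m - x.2.2‖
      linarith
    exact sub_eq_zero.1 (norm_eq_zero.1 (pow_eq_zero_iff (two_ne_zero) |>.1 h4))
  subst h2
  refine ⟨hm, hK, fun q hq => ?_⟩
  have h3 := max_ineq h hm hq
  have h4 : F (0, x.2 - q) = -F (0, q - x.2) := by
    rw [← map_neg]; congr 1; ext1 <;> simp
  rw [h4, ← real_inner_self_eq_norm_sq] at h3
  simp only [inner_sub_left, inner_sub_right] at h3 ⊢
  rw [real_inner_comm q.2 x.2.2] at h3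
  rw [real_inner_comm q.2 x.2.2]
  linarith

end Maximal

lemma convex_dom : Convex ℝ {x : X | (A x).Nonempty} := by
  rintro x ⟨F, hF⟩ y ⟨G, hG⟩ a b ha hb hab
  refine ⟨((a • F.comp (ContinuousLinearMap.inl ℝ C (ℝ × H))
    + b • G.comp (ContinuousLinearMap.inl ℝ C (ℝ × H)))).coprod (inn (a • x.2.2 + b • y.2.2)), ?_⟩
  have hT := T.add_mem (T.smul_mem a hF.1) (T.smul_mem b hG.1)
  have hKm := convex_K hF.2.1 hG.2.1 ha hb hab
  exact coprod_mem (u := (a • x + b • y).1) (p := (a • x + b • y).2) hT hKm (fun q _ => by simp)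

/-- the half-space -/
def U : Set X := {x | 0 < x.2.1}

lemma isOpen_U : IsOpen U := isOpen_lt continuous_const (continuous_fst.comp continuous_snd)

lemma convex_U : Convex ℝ U := by
  intro x hx y hy a b ha hb hab
  have hx' : 0 < x.2.1 := hx
  have hy' : 0 < y.2.1 := hy
  change 0 < a * x.2.1 + b * y.2.1
  rcases ha.eq_or_lt with h | h
  · subst h
    have : b = 1 := by linarith
    subst this
    simpa using hy'
  · have h1 : 0 < a * x.2.1 := mul_pos h hx'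
    have h2 : 0 ≤ b * y.2.1 := mul_nonneg hb hy'.le
    linarith

lemma meets : (U ∩ {x : X | (A x).Nonempty}).Nonempty := by
  refine ⟨(0, (1, 0)), by simp [U], ?_⟩
  refine ⟨(0 : C →L[ℝ] ℝ).coprod (inn 0), coprod_mem T.zero_mem ?_ (fun q _ => by simp)⟩
  intro S
  have h1 := sum_w_le 0 S (fun k _ => Nat.zero_le k)
  have h2 : ∑ k ∈ S, |(1 : ℝ) * w k + ((0 : H) : ℕ → ℝ) k| = ∑ k ∈ S, w k := by
    refine Finset.sum_congr rfl (fun k _ => ?_)
    simp [abs_of_pos (w_pos k)]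
  have h3 : del 0 = 1 / 2 := by simp [del]
  simp only at h2 ⊢
  rw [h2]
  linarith

/-- the trace of the bad point -/
noncomputable def g₀ : H := (2 : ℝ) • ep 0

/-- the bad point -/
noncomputable def x₀ : X := ((2 : ℝ) • (w 0 • e (0, 0)), (1, g₀))

/-- the bad functional -/
noncomputable def F₀ : X →L[ℝ] ℝ := ((2 : ℝ) • (-(w 0)⁻¹ • coord (0, 0))).coprod (inn g₀)

lemma F₀_T : (x₀.1, F₀.comp (ContinuousLinearMap.inl ℝ C (ℝ × H)), g₀) ∈ T := by
  have h := T.smul_mem (2 : ℝ) (single_mem_T 0)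
  have h2 : F₀.comp (ContinuousLinearMap.inl ℝ C (ℝ × H))
      = (2 : ℝ) • (-(w 0)⁻¹ • coord (0, 0)) := by
    ext v; simp [F₀]
  rw [h2]
  exact h

lemma not_mem : F₀ ∉ A x₀ := by
  intro h
  have h1 := h.2.1 {0}
  simp only [x₀, g₀, Finset.sum_singleton, lp.coeFn_smul, Pi.smul_apply, ep_apply, if_true,
    smul_eq_mul, mul_one, one_mul] at h1
  have h2 : w 0 = 1 / 4 := by norm_num [w]
  rw [h2] at h1
  norm_num [abs_le] at h1

lemma related (y : X) (hy : y ∈ U) (G : X →L[ℝ] ℝ) (hG : G ∈ A y) :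
    0 ≤ (F₀ - G) (x₀ - y) := by
  obtain ⟨hT, hK, hq⟩ := hG
  obtain ⟨hrel, htr⟩ := mem_T.1 hT
  have hN : G.comp (ContinuousLinearMap.inr ℝ C (ℝ × H)) - inn y.2.2 = 0 := by
    refine rigid hK hy (tendsto_bet (G.comp (ContinuousLinearMap.inl ℝ C (ℝ × H))))
      (fun k => ?_) _ (fun q hqK => ?_)
    · rw [htr k]; exact abs_s_le hrel k
    · have h1 := hq q hqK
      have h2 : (G.comp (ContinuousLinearMap.inr ℝ C (ℝ × H)) - inn y.2.2) (q - y.2)
          = G (0, q - y.2) - ⟪y.2.2, q.2 - y.2.2⟫ := rfl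
      rw [h2]; linarith
  have hG2 : ∀ p : ℝ × H, G (0, p) = ⟪y.2.2, p.2⟫ := by
    intro p
    have h1 := congrArg (fun f : (ℝ × H) →L[ℝ] ℝ => f p) hN
    have h2 : (G.comp (ContinuousLinearMap.inr ℝ C (ℝ × H)) - inn y.2.2) p
        = G (0, p) - ⟪y.2.2, p.2⟫ := rfl
    simp only [h2, _root_.zero_apply] at h1
    linarith
  rw [basic F₀_T hT, hG2]
  have h3 : ∀ p : ℝ × H, F₀ (0, p) = ⟪g₀, p.2⟫ := by
    intro p; simp [F₀]
  rw [h3, ← real_inner_self_eq_norm_sq]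
  have h4 : (x₀.2 - y.2).2 = g₀ - y.2.2 := rfl
  rw [h4, inner_sub_left]
  linarith

end Pool.Agent.Helper87_FPV
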