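import Pool.Agent.Helper87_FPV.CZero

/-!
A linear relation between `c₀(ℕ × ℕ)` and its dual with an indefinite quadratic form given by a
trace in `ℓ²`.
-/

set_option autoImplicit false

open Filter Topology
open scoped ZeroAtInfty RealInnerProductSpace

namespace Pool.Agent.Helper87_FPV

/-- the Hilbert space `ℓ²(ℕ)` -/
abbrev H := lp (fun _ : ℕ => ℝ) 2

/-- weights, with sum `1 / 2` -/
noncomputable def w (k : ℕ) : ℝ := (1 / 2) ^ (k + 2)

lemma w_pos (k : ℕ) : 0 < w k := by unfold w; positivity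

lemma w_ne (k : ℕ) : w k ≠ 0 := (w_pos k).ne'

/-- the linear relation -/
def Rel (u : C) (φ : C →L[ℝ] ℝ) : Prop :=
  ∀ k n : ℕ, u (k, n + 1) - u (k, n) = w k ^ 2 * (φ (e (k, n + 1)) + φ (e (k, n)))

/-- the hidden double sequence -/
noncomputable def s (u : C) (φ : C →L[ℝ] ℝ) (k n : ℕ) : ℝ :=
  (u (k, n) / w k - w k * φ (e (k, n))) / 2

lemma s_succ {u : C} {φ : C →L[ℝ] ℝ} (h : Rel u φ) (k n : ℕ) :
    s u φ k (n + 1) = (u (k, n) / w k + w k * φ (e (k, n))) / 2 := by
  have h1 := h k n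
  have h2 : u (k, n + 1) = u (k, n) + w k ^ 2 * (φ (e (k, n + 1)) + φ (e (k, n))) := by
    linarith
  unfold s
  rw [h2]
  have := w_ne k
  field_simp
  ring

lemma s_add {u : C} {φ : C →L[ℝ] ℝ} (h : Rel u φ) (k n : ℕ) :
    s u φ k n + s u φ k (n + 1) = u (k, n) / w k := by
  rw [s_succ h]; unfold s; ring

lemma s_sub {u : C} {φ : C →L[ℝ] ℝ} (h : Rel u φ) (k n : ℕ) :
    s u φ k (n + 1) - s u φ k n = w k * φ (e (k, n)) := by
  rw [s_succ h]; unfold s; ring

lemma tendsto_slice (f : I → ℝ) (hf : Tendsto f cofinite (𝓝 0)) (k : ℕ) :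
    Tendsto (fun n => f (k, n)) atTop (𝓝 0) := by
  have : Tendsto (fun n : ℕ => ((k, n) : I)) cofinite cofinite :=
    Function.Injective.tendsto_cofinite (fun a b h => (Prod.mk.inj h).2)
  rw [← Nat.cofinite_eq_atTop]
  exact hf.comp this

lemma tendsto_s (u : C) (φ : C →L[ℝ] ℝ) (k : ℕ) : Tendsto (s u φ k) atTop (𝓝 0) := by
  have h1 := tendsto_slice _ (tendsto_coe u) k
  have h2 := tendsto_slice _ (tendsto_apply_e φ) k
  have h3 := ((h1.div_const (w k)).sub (h2.const_mul (w k))).div_const 2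
  have h4 : s u φ k = fun n => (u (k, n) / w k - w k * φ (e (k, n))) / 2 := rfl
  rw [h4]
  simpa using h3

lemma hasSum_slice {u : C} {φ : C →L[ℝ] ℝ} (h : Rel u φ) (k : ℕ) :
    HasSum (fun n => u (k, n) * φ (e (k, n))) (-(s u φ k 0) ^ 2) := by
  have hs : Summable (fun n => u (k, n) * φ (e (k, n))) :=
    (hasSum_apply φ u).summable.prod_factor k
  rw [hs.hasSum_iff_tendsto_nat]
  have h1 : ∀ N : ℕ, ∑ n ∈ Finset.range N, u (k, n) * φ (e (k, n))
      = (s u φ k N) ^ 2 - (s u φ k 0) ^ 2 := by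
    intro N
    rw [← Finset.sum_range_sub (fun n => (s u φ k n) ^ 2)]
    refine Finset.sum_congr rfl (fun n _ => ?_)
    have ha := s_add h k n
    have hb := s_sub h k n
    have hw := w_ne k
    have ha' : u (k, n) = w k * (s u φ k n + s u φ k (n + 1)) := by
      rw [ha]; field_simp
    have hb' : φ (e (k, n)) = (s u φ k (n + 1) - s u φ k n) / w k := by
      rw [hb]; field_simp
    rw [ha', hb']
    field_simp
    ring
  simp only [h1]
  have h2 := ((tendsto_s u φ k).pow 2).sub_const ((s u φ k 0) ^ 2)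
  simpa using h2

lemma hasSum_quad {u : C} {φ : C →L[ℝ] ℝ} (h : Rel u φ) :
    HasSum (fun k => -(s u φ k 0) ^ 2) (φ u) :=
  (hasSum_apply φ u).prod_fiberwise (hasSum_slice h)

/-- row sums of a functional -/
noncomputable def bet (φ : C →L[ℝ] ℝ) (k : ℕ) : ℝ := ∑' n, |φ (e (k, n))|

lemma tendsto_bet (φ : C →L[ℝ] ℝ) : Tendsto (bet φ) atTop (𝓝 0) :=
  (summable_abs φ).prod.tendsto_atTop_zero

lemma abs_s_le {u : C} {φ : C →L[ℝ] ℝ} (h : Rel u φ) (k : ℕ) :
    |s u φ k 0| ≤ w k * bet φ k := by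
  have hs : Summable (fun n => |φ (e (k, n))|) := (summable_abs φ).prod_factor k
  have hs' : Summable (fun n => φ (e (k, n))) := hs.of_abs
  have h1 : HasSum (fun n => w k * φ (e (k, n))) (-(s u φ k 0)) := by
    rw [(hs'.mul_left (w k)).hasSum_iff_tendsto_nat]
    have h2 : ∀ N : ℕ, ∑ n ∈ Finset.range N, w k * φ (e (k, n)) = s u φ k N - s u φ k 0 := by
      intro N
      rw [← Finset.sum_range_sub (fun n => s u φ k n)]
      exact Finset.sum_congr rfl (fun n _ => (s_sub h k n).symm)
    simp only [h2]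
    simpa using (tendsto_s u φ k).sub_const (s u φ k 0)
  have h3 : -(s u φ k 0) = w k * ∑' n, φ (e (k, n)) := by
    rw [← h1.tsum_eq, tsum_mul_left]
  rw [← abs_neg, h3, abs_mul, abs_of_pos (w_pos k)]
  refine mul_le_mul_of_nonneg_left ?_ (w_pos k).le
  have := norm_tsum_le_tsum_norm (f := fun n => φ (e (k, n))) (by simpa using hs)
  simpa [bet] using this

/-- relation together with the trace -/
def T : Submodule ℝ (C × (C →L[ℝ] ℝ) × H) where
  carrier := {p | Rel p.1 p.2.1 ∧ ∀ k, (p.2.2 : ℕ → ℝ) k = s p.1 p.2.1 k 0}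
  add_mem' := by
    rintro ⟨u, φ, g⟩ ⟨u', φ', g'⟩ ⟨h1, h2⟩ ⟨h1', h2'⟩
    simp only at h1 h2 h1' h2'
    refine ⟨fun k n => ?_, fun k => ?_⟩
    · have a := h1 k n
      have b := h1' k n
      simp only [Prod.mk_add_mk, C.add_apply, _root_.add_apply]
      linear_combination a + b
    · have a := h2 k
      have b := h2' k
      simp only [Prod.mk_add_mk, lp.coeFn_add, Pi.add_apply, a, b, s, C.add_apply,
        _root_.add_apply]
      ring
  zero_mem' := by
    refine ⟨fun k n => by simp, fun k => by simp [s]⟩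
  smul_mem' := by
    rintro c ⟨u, φ, g⟩ ⟨h1, h2⟩
    simp only at h1 h2
    refine ⟨fun k n => ?_, fun k => ?_⟩
    · have a := h1 k n
      simp only [Prod.smul_mk, C.smul_apply, _root_.smul_apply, smul_eq_mul]
      linear_combination c * a
    · have a := h2 k
      simp only [Prod.smul_mk, lp.coeFn_smul, Pi.smul_apply, a, s, C.smul_apply,
        _root_.smul_apply, smul_eq_mul]
      ring

lemma mem_T {u : C} {φ : C →L[ℝ] ℝ} {g : H} :
    (u, φ, g) ∈ T ↔ Rel u φ ∧ ∀ k, (g : ℕ → ℝ) k = s u φ k 0 := Iff.rfl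

lemma norm_sq_eq (g : H) : HasSum (fun k => (g : ℕ → ℝ) k ^ 2) (‖g‖ ^ 2) := by
  have h := lp.hasSum_norm (p := 2) (by norm_num) g
  simpa using h

lemma quad {u : C} {φ : C →L[ℝ] ℝ} {g : H} (h : (u, φ, g) ∈ T) : φ u = -‖g‖ ^ 2 := by
  obtain ⟨h1, h2⟩ := mem_T.1 h
  have h3 := hasSum_quad h1
  have h4 := (norm_sq_eq g).neg
  simp only [h2] at h4
  exact h3.unique h4

/-- the trace belongs to `ℓ²` -/
lemma exists_trace {u : C} {φ : C →L[ℝ] ℝ} (h : Rel u φ) : ∃ g : H, (u, φ, g) ∈ T := by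
  refine ⟨⟨fun k => s u φ k 0, ?_⟩, h, fun k => rfl⟩
  refine memℓp_gen ?_
  have := (hasSum_quad h).summable.neg
  simpa using this

/-- unit vectors of `ℓ²` -/
noncomputable def ep (k : ℕ) : H := lp.single 2 k (1 : ℝ)

lemma ep_apply (k j : ℕ) : (ep k : ℕ → ℝ) j = if j = k then 1 else 0 := by
  simp [ep, lp.single_apply, Pi.single_apply]

lemma inner_ep (k : ℕ) (a : H) : ⟪ep k, a⟫ = a k := by
  rw [ep, lp.inner_single_left]
  simp

/-- a point of the relation with trace a unit vector -/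
lemma single_mem_T (j : ℕ) : (w j • e (j, 0), -(w j)⁻¹ • coord (j, 0), ep j) ∈ T := by
  refine ⟨fun k n => ?_, fun k => ?_⟩
  · by_cases h : k = j
    · subst h
      have := w_ne k
      rcases n with _ | n
      · simp [e_apply]
        field_simp
      · simp [e_apply]
    · simp [e_apply, h, Ne.symm h]
  · by_cases h : k = j
    · subst h
      have := w_ne k
      simp [e_apply, ep_apply, s]
      field_simp
      norm_num
    · simp [e_apply, ep_apply, s, h, Ne.symm h]

/-- test points with trace zero -/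
lemma test_mem_T (k n : ℕ) :
    (w k ^ 2 • (e (k, n + 1) + e (k, n)), coord (k, n) - coord (k, n + 1), (0 : H)) ∈ T := by
  refine ⟨fun k' n' => ?_, fun k' => ?_⟩
  · by_cases h : k' = k
    · subst h
      simp only [C.smul_apply, C.add_apply, e_apply, _root_.sub_apply, coord_apply,
        Prod.mk.injEq, true_and, add_left_inj]
      by_cases h1 : n' = n
      · subst h1; simp
      · by_cases h2 : n' + 1 = n
        · subst h2
          have h7 : ¬ n' = n' + 1 + 1 := by omega
          have h8 : ¬ n' + 1 + 1 = n' := by omega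
          simp [h7, h8]
        · by_cases h3 : n' = n + 1
          · subst h3
            have h7 : ¬ n + 1 + 1 = n := by omega
            have h8 : ¬ n = n + 1 + 1 := by omega
            simp [h7, h8]
          · have h4 : ¬ n = n' := fun h => h1 h.symm
            have h5 : ¬ n = n' + 1 := fun h => h2 h.symm
            have h6 : ¬ n + 1 = n' := fun h => h3 h.symm
            simp [h1, h2, h3, h4, h5, h6]
    · simp [e_apply, h, Ne.symm h]
  · by_cases h : k' = k
    · subst h
      have := w_ne k'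
      rcases n with _ | n
      · simp [e_apply, s]
        field_simp
        norm_num
      · simp [e_apply, s]
    · simp [e_apply, s, h, Ne.symm h]

end Pool.Agent.Helper87_FPV
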